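import Pool.Agent.U585.RM.Cor

/-!
# MP_323ce2_nt: the weak Mertens bound holds almost surely in the random model of the Moebius function

The random model (Wintner) replaces the values `μ(p) = -1` at the primes by independent random
variables `f p` of mean zero with `|f p| ≤ 1` (any law, not necessarily identically distributed), and
`μ` by the random function supported on the squarefree integers with value `∏_{p ∣ n} f p` at `n`.
The theorem: almost surely the mean square
`∫_1^x (|∑_{n ≤ u} f(n)| / u)² du` is `o(log x)`, so that the weak Mertens bound holds, and this is true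
*simultaneously* for all functions `g` on the primes with `∑_p |g p - f p| / √p < ∞`.
-/

set_option autoImplicit false

namespace Pool.Agent.Results.MP_323ce2_nt.AlmostSureRandomModel

open MeasureTheory Filter Topology ProbabilityTheory

/-- `∑_{n ≤ u} g(n)`, where `g` is extended from the primes to the squarefree integers
multiplicatively and by `0` to the other integers; for `g = -1` this is the Mertens function `M(u)`. -/
noncomputable def M (g : ℕ → ℂ) (u : ℝ) : ℂ :=
  open Classical in
  ∑ n ∈ Finset.Icc 1 ⌊u⌋₊, if Squarefree n then ∏ p ∈ n.primeFactors, g p else 0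

/-- `∫_1^x (|M(u)| / u)² du` -/
noncomputable def I (g : ℕ → ℂ) (x : ℝ) : ℝ := ∫ u in (1 : ℝ)..x, (‖M g u‖ / u) ^ 2

/-- The weak Mertens bound, with `o(log x)`, holds almost surely for random multiplicative functions on
the squarefree integers with arbitrary independent mean zero values in the unit disc at the primes, and
then for all functions near to them. The first statement says that `M` is the Mertens function for
`g = -1`. -/
theorem result :
    (∀ u : ℝ, M (fun _ => -1) u =
      ((∑ n ∈ Finset.Icc 1 ⌊u⌋₊, ArithmeticFunction.moebius n : ℤ) : ℂ)) ∧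
    ∀ (Ω : Type) [MeasurableSpace Ω] (P : Measure Ω) [IsProbabilityMeasure P] (f : ℕ → Ω → ℂ),
      (∀ p, Measurable (f p)) → iIndepFun f P → (∀ p ω, ‖f p ω‖ ≤ 1) →
      (∀ p, ∫ ω, f p ω ∂P = 0) →
      ∀ᵐ ω ∂P, ∀ g : ℕ → ℂ,
        (Summable fun p : Nat.Primes => ‖g p - f p ω‖ / Real.sqrt ((p : ℕ) : ℝ)) →
          Tendsto (fun x : ℝ => I g x / Real.log x) atTop (𝓝 0) ∧
          ∃ C : ℝ, ∀ x : ℝ, 2 ≤ x → I g x ≤ C * Real.log x := by
  refine ⟨fun u => ?_, ?_⟩
  · unfold M
    push_cast
    refine Finset.sum_congr rfl fun n hn => ?_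
    rw [Finset.mem_Icc] at hn
    exact Pool.Agent.U585.RM.coef_neg_one (by omega)
  · intro Ω _ P _ f hm hi hb h0
    filter_upwards [Pool.Agent.U585.RM.final (⟨hm, hi, hb, h0⟩ : Pool.Agent.U585.RM.Model P f)]
      with ω hω
    intro g hg
    have h1 : Tendsto (fun x : ℝ => Pool.Agent.U585.RM.msq g x / Real.log x) atTop (𝓝 0) := hω g hg
    exact ⟨h1, Pool.Agent.U585.RM.bound_of_tendsto h1⟩

end Pool.Agent.Results.MP_323ce2_nt.AlmostSureRandomModel
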