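import Pool.Agent.U441.MP.Xg
import Pool.Agent.U441.MP.Xj

/-!
# The weak Mertens hypothesis is decided by the values of `M` at the `k`-th powers

Let `M(u) = ∑_{n ≤ u} μ(n)` and `x_n = (q n + r)^k` with real `k, q > 0`, `r ≥ 0` (`k` may be as large as one likes),

`E_r(N) = ∑_{n ≤ N} M(x_n)² / (x_n (q n + r))`, `P_s(N) = ∑_{n ≤ N} max(s M(x_n), 0) / (√x_n (q n + r))`, `s = ±1`.

Let `WM` be the weak Mertens hypothesis `∫_1^x (M(u)/u)² du ≪ log x` and `S = ∑_ρ 1 / |ρ ζ'(ρ)|²`. Unconditionally: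

1. If `WM` fails then `E_r(N) / log N → ∞` for all `k`, `q` and all `r ≥ 0`; if `WM` holds then
   `liminf q E_r(N) / log N ≥ S` for all `k`, `q` and all `r ≥ 0`.
2. If `WM` holds then `q E_r(N) / log N → S` in mean over the shift `r ∈ [a, a + q]`, and for almost every `r > 0`
   `liminf q E_r(N) / log N = S`.
3. So for every pair `k, q` the hypothesis `WM` is equivalent to: `E_r(N) ≤ C log N` for infinitely many `N`, for one
   shift `r ≥ 0`; and to the same for almost every shift `r > 0`.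
4. For `k ≤ 2` (the squares, for instance) and every `r ≥ 0` it is equivalent to `E_r(N) ≤ C log N` for all `N ≥ 2`,
   and to the same for infinitely many `N`.
5. If the Riemann hypothesis fails or if there is a multiple zero then `P_s(N) / log N → ∞`, for both `s`.
-/

set_option autoImplicit false

open Filter Topology MeasureTheory

namespace Pool.Agent.Results.MP_323ce2_nt.AlongPowers

/-- the Mertens function -/
noncomputable def M (u : ℝ) : ℝ := ∑ n ∈ Finset.Icc 1 ⌊u⌋₊, ((ArithmeticFunction.moebius n : ℤ) : ℝ)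

/-- the weak Mertens hypothesis (text of the frozen statement) -/
def WeakMertens : Prop := ∃ C : ℝ, ∀ x : ℝ, 2 ≤ x → ∫ u in (1:ℝ)..x, (M u / u) ^ 2 ≤ C * Real.log x

/-- the nontrivial zeros of the Riemann zeta function -/
def NT : Set ℂ := {s : ℂ | riemannZeta s = 0 ∧ 0 < s.re ∧ s.re < 1}

/-- the Riemann hypothesis holds and all nontrivial zeros are simple -/
def SimpleZeros : Prop := ∀ ρ ∈ NT, ρ.re = 1 / 2 ∧ deriv riemannZeta ρ ≠ 0

/-- `x_n = (q n + r)^k` -/
noncomputable def pt (k q r : ℝ) (n : ℕ) : ℝ := (q * n + r) ^ k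

/-- `E(N)`, the sum over `n ≤ N` of `M(x_n)² / (x_n (q n + r))` -/
noncomputable def energy (k q r : ℝ) (N : ℕ) : ℝ :=
  ∑ n ∈ Finset.Icc 1 N, M (pt k q r n) ^ 2 / (pt k q r n * (q * n + r))

/-- `P_s(N)`, the sum over `n ≤ N` of `max(s M(x_n), 0) / (√x_n (q n + r))` -/
noncomputable def positivePart (s k q r : ℝ) (N : ℕ) : ℝ :=
  ∑ n ∈ Finset.Icc 1 N, max (s * M (pt k q r n)) 0 / (Real.sqrt (pt k q r n) * (q * n + r))

/-- `E(N) ≤ C log N` for all `N ≥ 2`, for some `C` -/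
def BoundedEnergy (k q r : ℝ) : Prop := ∃ C : ℝ, ∀ N : ℕ, 2 ≤ N → energy k q r N ≤ C * Real.log N

/-- `E(N) ≤ C log N` for infinitely many `N`, for some `C` -/
def OftenBoundedEnergy (k q r : ℝ) : Prop := ∃ C : ℝ, ∃ᶠ N : ℕ in atTop, energy k q r N ≤ C * Real.log N

section aux

open U441.MP

lemma log_ev : Tendsto (fun N : ℕ => Real.log (N:ℝ)) atTop atTop :=
  Real.tendsto_log_atTop.comp tendsto_natCast_atTop_atTop

lemma tendsto_of_not_often {E : ℕ → ℝ} (h : ∀ C : ℝ, ¬ ∃ᶠ N : ℕ in atTop, E N ≤ C * Real.log N) :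
    Tendsto (fun N : ℕ => E N / Real.log N) atTop atTop := by
  refine tendsto_atTop.2 fun b => ?_
  have h1 := h b
  rw [Filter.not_frequently] at h1
  filter_upwards [h1, log_ev.eventually_gt_atTop 0] with N h2 h3
  rw [le_div_iff₀ h3]
  exact (not_le.1 h2).le

lemma zc_of_often {k q r C : ℝ} (hk : 0 < k) (hq : 0 < q) (hr : 0 ≤ r)
    (hf : ∃ᶠ N : ℕ in atTop, energy k q r N ≤ C * Real.log N) :
    SimpleZeros ∧ Summable (fun ρ : NT => 1 / ‖(ρ : ℂ) * deriv riemannZeta ρ‖ ^ 2) ∧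
    ∑' ρ : NT, 1 / ‖(ρ : ℂ) * deriv riemannZeta ρ‖ ^ 2 ≤ q * C := by
  have hf' : ∃ᶠ N : ℕ in atTop, SX k q r N ≤ C * Real.log N := hf
  obtain ⟨h1, h2⟩ := main_powers hk hq hr hf'
  have hsum : ∀ u : Finset NT, ∑ ρ ∈ u, 1 / ‖(ρ : ℂ) * deriv riemannZeta ρ‖ ^ 2 ≤ q * C := by
    intro u
    classical
    have h3 := h2 (u.map (Function.Embedding.subtype _)) (fun ρ hρ => by
      rw [Finset.mem_map] at hρ
      obtain ⟨ρ', -, rfl⟩ := hρ
      exact ⟨ρ'.2.1, ρ'.2.2.1⟩)
    rwa [Finset.sum_map] at h3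
  exact ⟨fun ρ hρ => h1 ρ hρ.1 hρ.2.1, summable_of_sum_le (fun ρ => by positivity) hsum,
    Real.tsum_le_of_sum_le (fun ρ => by positivity) hsum⟩

lemma wm_iff : WeakMertens ↔ SimpleZeros ∧ Summable (fun ρ : NT => 1 / ‖(ρ : ℂ) * deriv riemannZeta ρ‖ ^ 2) := by
  obtain ⟨K, -, -, h⟩ := W120.WM.final2 W120.WM.sharpT
  exact h.out 0 2

lemma first_often {s k q r C : ℝ} (hs : s = 1 ∨ s = -1) (hk : 0 < k) (hq : 0 < q) (hr : 0 ≤ r)
    (hf : ∃ᶠ N : ℕ in atTop, positivePart s k q r N ≤ C * Real.log N) : SimpleZeros := by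
  have e : ∀ N : ℕ, Pn (psi muR 0 1) k q r s N = k * q * positivePart s k q r N := by
    intro N
    unfold Pn positivePart
    rw [Finset.mul_sum]
    refine Finset.sum_congr rfl fun n hn => ?_
    rw [Finset.mem_Icc] at hn
    have hy := yy_pos hq hr (by exact_mod_cast hn.1 : (0:ℝ) < n)
    have e0 : q * (n:ℝ) + r = yy q r n := rfl
    unfold pt
    rw [e0]
    unfold Sn Vn cn
    rw [psi_at hy]
    have hx : 0 < yy q r n ^ k := Real.rpow_pos_of_pos hy _
    have e1 : Real.exp (-(k * Real.log (yy q r n) / 2)) = (Real.sqrt (yy q r n ^ k))⁻¹ := by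
      rw [Real.sqrt_eq_rpow, ← Real.rpow_mul hy.le, Real.exp_neg, Real.rpow_def_of_pos hy]
      congr 2
      ring
    have e2 : 1 * (Sa muR (yy q r n ^ k) - 0 * yy q r n ^ (k * (1 / 2))) = M (yy q r n ^ k) := by
      rw [one_mul, zero_mul, sub_zero]
      rfl
    rw [e1, e2]
    have hsq : 0 < Real.sqrt (yy q r n ^ k) := Real.sqrt_pos.2 hx
    field_simp
  have hP0 : ∀ N, 0 ≤ positivePart s k q r N := by
    intro N
    unfold positivePart
    refine Finset.sum_nonneg fun n _ => ?_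
    have : 0 ≤ max (s * M (pt k q r n)) 0 := le_max_right _ _
    positivity
  have hC0 : 0 ≤ C := by
    obtain ⟨N, h1, h2⟩ := (hf.and_eventually (eventually_ge_atTop 2)).exists
    by_contra hcon
    have h3 := hP0 N
    have h4 : 0 < Real.log N := Real.log_pos (by exact_mod_cast h2)
    nlinarith [not_le.1 hcon]
  have hfr : ∃ᶠ N : ℕ in atTop, Pn (psi muR 0 1) k q r s N ≤ (q * C + 1) * Vn k q r N := by
    refine (hf.and_eventually ((log_ev.eventually_ge_atTop (-((q * C + 1) * Real.log q))).and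
      (eventually_ge_atTop 1))).mono fun N hN => ?_
    obtain ⟨a1, a2, a3⟩ := hN
    have hN0 : (0:ℝ) < N := by exact_mod_cast a3
    rw [e N]
    have h5 : Real.log q + Real.log N ≤ Real.log (yy q r N) := by
      rw [← Real.log_mul hq.ne' hN0.ne']
      exact Real.log_le_log (by positivity) (by unfold yy; linarith)
    have h6 : q * C * Real.log N ≤ (q * C + 1) * (Real.log q + Real.log N) := by nlinarith
    have h7 : (q * C + 1) * (Real.log q + Real.log N) ≤ (q * C + 1) * Real.log (yy q r N) :=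
      mul_le_mul_of_nonneg_left h5 (by positivity)
    unfold Vn
    calc k * q * positivePart s k q r N ≤ k * q * (C * Real.log N) := mul_le_mul_of_nonneg_left a1 (by positivity)
      _ = k * (q * C * Real.log N) := by ring
      _ ≤ k * ((q * C + 1) * Real.log (yy q r N)) := mul_le_mul_of_nonneg_left (h6.trans h7) hk.le
      _ = _ := by ring
  exact fun ρ hρ => rh_simple1 hk hq hr goodM hs hfr ρ hρ.1 hρ.2.1

/-- `∑_ρ 1 / |ρ ζ'(ρ)|²` over the nontrivial zeros -/
noncomputable def zeroSum : ℝ := ∑' ρ : NT, 1 / ‖(ρ : ℂ) * deriv riemannZeta ρ‖ ^ 2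

lemma lim_of_wm (hW : WeakMertens) : Tendsto (fun x : ℝ => ms 1 x / Real.log x) atTop (𝓝 SS) := by
  have hZ : Pool.Agent.W120.WM.ZC := wm_iff.1 hW
  have h := (Pool.Agent.W120.WM.final3 1 one_pos le_rfl).1 hZ
  rw [one_mul] at h
  refine h.congr fun x => ?_
  rw [sub_self, Real.rpow_zero]
  rfl

lemma low_of_wm {k q : ℝ} (hk : 0 < k) (hq : 0 < q) (r : ℝ) (hr : 0 ≤ r) (c : ℝ) (hc : q * c < SS) :
    ∀ᶠ N : ℕ in atTop, c * Real.log N < SX k q r N := by
  by_contra hcon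
  have hf : ∃ᶠ N : ℕ in atTop, energy k q r N ≤ c * Real.log N := by
    rw [Filter.not_eventually] at hcon
    exact hcon.mono fun N hN => not_lt.1 hN
  have h : SS ≤ q * c := (zc_of_often hk hq hr hf).2.2
  linarith

lemma SS_nonneg : 0 ≤ SS := tsum_nonneg fun ρ => by positivity

lemma often_of_ae {k q : ℝ} (h : ∀ᵐ r : ℝ, 0 < r → OftenBoundedEnergy k q r) :
    ∃ r : ℝ, 0 ≤ r ∧ OftenBoundedEnergy k q r := by
  by_contra hcon
  push Not at hcon
  have h1 : (volume : Measure ℝ) (Set.Ioi 0) = 0 := by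
    refine measure_mono_null (fun r hr => ?_) h
    have hr0 : (0:ℝ) < r := hr
    simp only [Set.mem_compl_iff, Set.mem_setOf_eq]
    exact fun h2 => hcon r hr0.le (h2 hr0)
  rw [Real.volume_Ioi] at h1
  exact ENNReal.top_ne_zero h1

end aux

/-- **Main theorem.** -/
theorem result (k q : ℝ) (hk : 0 < k) (hq : 0 < q) :
    -- (1) every shift: the energy is large
    (∀ r : ℝ, 0 ≤ r →
      (¬ WeakMertens → Tendsto (fun N : ℕ => energy k q r N / Real.log N) atTop atTop) ∧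
      (WeakMertens → ∀ c : ℝ, q * c < zeroSum → ∀ᶠ N : ℕ in atTop, c * Real.log N < energy k q r N)) ∧
    -- (2) the exact constant, in mean over the shift and for almost every shift
    (WeakMertens →
      (∀ a : ℝ, 0 ≤ a →
        Tendsto (fun N : ℕ => ∫ r in a..(a + q), |q * energy k q r N / Real.log N - zeroSum|) atTop (𝓝 0)) ∧
      ∀ᵐ r : ℝ, 0 < r → ∀ c : ℝ, zeroSum < q * c → ∃ᶠ N : ℕ in atTop, energy k q r N < c * Real.log N) ∧
    -- (3) the criteria
    (WeakMertens ↔ ∃ r : ℝ, 0 ≤ r ∧ OftenBoundedEnergy k q r) ∧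
    (WeakMertens ↔ ∀ᵐ r : ℝ, 0 < r → OftenBoundedEnergy k q r) ∧
    -- (4) exponents at most two
    (k ≤ 2 → ∀ r : ℝ, 0 ≤ r → (WeakMertens ↔ BoundedEnergy k q r) ∧ (WeakMertens ↔ OftenBoundedEnergy k q r)) ∧
    -- (5) one sign
    (¬ SimpleZeros → ∀ r : ℝ, 0 ≤ r → ∀ s : ℝ, s = 1 ∨ s = -1 →
      Tendsto (fun N : ℕ => positivePart s k q r N / Real.log N) atTop atTop) := by
  have hoften : ∀ r : ℝ, 0 ≤ r → OftenBoundedEnergy k q r → WeakMertens := by
    rintro r hr ⟨C, hC⟩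
    have h := zc_of_often hk hq hr hC
    exact wm_iff.2 ⟨h.1, h.2.1⟩
  have hall : ∀ r : ℝ, BoundedEnergy k q r → OftenBoundedEnergy k q r := by
    rintro r ⟨C, hC⟩
    exact ⟨C, ((eventually_ge_atTop 2).mono fun N hN => hC N hN).frequently⟩
  have hae : WeakMertens → ∀ᵐ r : ℝ, 0 < r → ∀ c : ℝ, zeroSum < q * c →
      ∃ᶠ N : ℕ in atTop, energy k q r N < c * Real.log N := fun hW =>
    U441.MP.ae_pos hk hq (lim_of_wm hW) SS_nonneg fun r hr c hc => low_of_wm hk hq r hr c hc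
  have hae2 : WeakMertens → ∀ᵐ r : ℝ, 0 < r → OftenBoundedEnergy k q r := by
    intro hW
    filter_upwards [hae hW] with r hr hr0
    refine ⟨(zeroSum + 1) / q, (hr hr0 ((zeroSum + 1) / q) ?_).mono fun N hN => hN.le⟩
    rw [mul_div_cancel₀ _ hq.ne']
    linarith
  refine ⟨fun r hr => ⟨fun hW => tendsto_of_not_often fun C hC => hW (hoften r hr ⟨C, hC⟩),
      fun _ c hc => low_of_wm hk hq r hr c hc⟩,
    fun hW => ⟨fun a ha => U441.MP.l1_shift hk hq ha (lim_of_wm hW) SS_nonneg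
      fun r hr c hc => low_of_wm hk hq r hr c hc, hae hW⟩,
    ⟨fun hW => often_of_ae (hae2 hW), fun ⟨r, hr, h⟩ => hoften r hr h⟩,
    ⟨hae2, fun h => by
      obtain ⟨r, hr, h1⟩ := often_of_ae h
      exact hoften r hr h1⟩,
    fun hk2 r hr => ?_,
    fun hS r hr s hs => tendsto_of_not_often fun C hC => hS (first_often hs hk hq hr hC)⟩
  have hconv : WeakMertens → BoundedEnergy k q r := fun hW => U441.MP.converse hk hk2 hq hr hW
  exact ⟨⟨hconv, fun h => hoften r hr (hall r h)⟩, ⟨fun h => hall r (hconv h), hoften r hr⟩⟩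

end Pool.Agent.Results.MP_323ce2_nt.AlongPowers
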