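import Pool.Agent.U463.FS.Main

/-!
# Franel's sum of the Farey sequence of a single order decides the weak Mertens hypothesis

Let `r_1 < ... < r_N` be the Farey sequence of order `n` (`N ~ 3 n² / π²`) and let
`Fr(n) = ∑_j (r_j - j/N)²` be Franel's sum. By the theorem of Franel the Riemann hypothesis is equivalent to
`Fr(n) ≪ n^(-1+ε)`. We show, unconditionally:

* the weak Mertens hypothesis `∫_1^x (M(u)/u)² du ≪ log x` is equivalent to `Fr(n) ≤ C log n / n` for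
  ARBITRARILY LARGE `n` (as sparse as one likes), and to the same with the mean square discrepancy
  `∫_0^1 (#{r_j ≤ t} - N t)² dt ≤ C n log n`;
* if it fails, then `n Fr(n) / log n → ∞`, for the whole sequence of the orders; if it holds, then
  `liminf n Fr(n) / log n` lies between `K` and `2 K`, and `∑_{m ≤ n} Fr(m) ~ K log² n`, where
  `K = π² / (72 ζ(3)) ∑_ρ |ζ(1+ρ)|² / |ρ ζ'(ρ)|²`;
* always `Fr(n) ≥ c log n / n` for all large `n`, `c > 0`.

Proof. The exact formula (Franel) `∫_0^1 (#{r_j ≤ t} - N t)² dt = 1/4 + (1/12) ∑_{g ≤ n} w(g) H(n/g)²`,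
`w(g) = ∑_{d ∣ g} μ(d)/d²`, `H(y) = ∑_{m ≤ y} M(y/m)/m`, and the mean square of `H` (library `R305.FM`). For a
single order: `H(y)` depends only on `⌊y⌋`, and the weights `w(g)` with `⌊n/g⌋ = Y` add up to
`n / (ζ(3) Y (Y+1)) + O(1)`, so that the terms with `Y ≤ √(δ n)` give at least `(n / 12) (1/ζ(3) - ε)` times
`∫_1^Y (H(u)/u)² du`.
-/

set_option autoImplicit false

open Filter Topology MeasureTheory

namespace Pool.Agent.Results.MP_323ce2_nt.FranelSumCriterion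

/-- the Mertens function -/
noncomputable def M (u : ℝ) : ℝ := ∑ n ∈ Finset.Icc 1 ⌊u⌋₊, ((ArithmeticFunction.moebius n : ℤ) : ℝ)

/-- the weak Mertens hypothesis -/
def WeakMertens : Prop := ∃ C : ℝ, ∀ x : ℝ, 2 ≤ x → ∫ u in (1:ℝ)..x, (M u / u) ^ 2 ≤ C * Real.log x

/-- the Farey sequence of order `n`: the rationals in `(0, 1]` with denominator at most `n` -/
def farey (n : ℕ) : Finset ℚ :=
  ((Finset.Icc 1 n ×ˢ Finset.Icc 1 n).image (fun p : ℕ × ℕ => (p.1 : ℚ) / (p.2 : ℚ))).filter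
    (fun q : ℚ => q ≤ 1)

/-- the number of Farey fractions of order `n` -/
def N (n : ℕ) : ℕ := (farey n).card

/-- the `j`-th Farey fraction of order `n` in increasing order (`j` starts at `0`) -/
noncomputable def r (n : ℕ) (j : Fin (N n)) : ℝ := (((farey n).orderEmbOfFin rfl j : ℚ) : ℝ)

/-- Franel's sum `∑_{j=1}^N (r_j - j/N)²` -/
noncomputable def franel (n : ℕ) : ℝ := ∑ j : Fin (N n), (r n j - ((j : ℕ) + 1 : ℝ) / (N n : ℝ)) ^ 2

/-- the mean square discrepancy `∫_0^1 (#{r ≤ t} - N t)² dt` of the Farey sequence of order `n` -/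
noncomputable def disc (n : ℕ) : ℝ :=
  ∫ t in (0 : ℝ)..1, ((((farey n).filter fun q : ℚ => (q : ℝ) ≤ t).card : ℝ) - (N n : ℝ) * t) ^ 2

/-- the nontrivial zeros of the Riemann zeta function -/
def NT : Set ℂ := {s : ℂ | riemannZeta s = 0 ∧ 0 < s.re ∧ s.re < 1}

/-- `|ζ(1+ρ)|² / |ρ ζ'(ρ)|²` -/
noncomputable def term (ρ : NT) : ℝ :=
  ‖riemannZeta (1 + ρ)‖ ^ 2 / ‖(ρ : ℂ) * deriv riemannZeta ρ‖ ^ 2

/-- `π² / (72 ζ(3)) ∑_ρ |ζ(1+ρ)|² / |ρ ζ'(ρ)|²` -/
noncomputable def K : ℝ := Real.pi ^ 2 / (72 * ∑' n : ℕ, 1 / (n : ℝ) ^ 3) * ∑' ρ : NT, term ρ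

open Pool.Agent.U463.FS in
theorem result :
    (WeakMertens ↔ ∃ C : ℝ, ∃ᶠ n : ℕ in atTop, franel n ≤ C * (Real.log n / n)) ∧
    (WeakMertens ↔ ∃ C : ℝ, ∃ᶠ n : ℕ in atTop, disc n ≤ C * (n * Real.log n)) ∧
    (WeakMertens ↔ ∃ C : ℝ, ∀ n : ℕ, 2 ≤ n → ∑ m ∈ Finset.Icc 1 n, franel m ≤ C * Real.log n ^ 2) ∧
    (WeakMertens ↔ ∃ C : ℝ, ∃ᶠ n : ℕ in atTop, ∑ m ∈ Finset.Icc 1 n, franel m ≤ C * Real.log n ^ 2) ∧
    (WeakMertens → Summable term ∧ 0 < K ∧
      Tendsto (fun n : ℕ => (∑ m ∈ Finset.Icc 1 n, franel m) / Real.log n ^ 2) atTop (𝓝 K) ∧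
      (∀ η : ℝ, 0 < η → ∀ᶠ n : ℕ in atTop, K - η ≤ n * franel n / Real.log n) ∧
      (∀ η : ℝ, 0 < η → ∃ᶠ n : ℕ in atTop, n * franel n / Real.log n ≤ 2 * K + η)) ∧
    (¬ WeakMertens → Tendsto (fun n : ℕ => n * franel n / Real.log n) atTop atTop) ∧
    (∃ c : ℝ, 0 < c ∧ ∀ᶠ n : ℕ in atTop, c * (Real.log n / n) ≤ franel n) := by
  have hWM : WeakMertens ↔ Pool.Agent.W120.WM.ZC := Pool.Agent.TH223.AP.WM_iff_ZC
  have hFr : ∀ n, franel n = Fr n := fun n => rfl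
  have hQ : ∀ n : ℕ, n * franel n / Real.log n = QQ n := fun n => rfl
  have hB : ∀ n : ℕ, ∑ m ∈ Finset.Icc 1 n, franel m = BB n := fun n => rfl
  have hD : ∀ n : ℕ, disc n = Pool.Agent.R305.FM.DD n := by
    intro n
    unfold disc Pool.Agent.R305.FM.DD
    apply intervalIntegral.integral_congr
    intro t _
    simp only
    congr 2
    show (((farey n).filter fun q : ℚ => (q : ℝ) ≤ t).card : ℝ) = H353.FB.cnt n t
    unfold H353.FB.cnt
    rw [Finset.card_filter]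
    push_cast
    rfl
  have hK : K = κ := by
    have h1 := Pool.Agent.R305.FM.mu3_mul
    have h2 := Pool.Agent.R305.FM.mu3_pos
    have h3 : 0 < ∑' n : ℕ, 1 / (n : ℝ) ^ 3 := by
      by_contra h
      push Not at h
      nlinarith
    have h4 : Pool.Agent.R305.FM.mu3 = 1 / ∑' n : ℕ, 1 / (n : ℝ) ^ 3 := by
      rw [eq_div_iff h3.ne']
      exact h1
    have h5 : ∑' ρ : NT, term ρ = Pool.Agent.R305.FM.SH := rfl
    unfold K κ
    rw [h4, h5]
    field_simp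
    ring
  -- frequently for Franel's sum
  have e1 : ∀ C : ℝ, ∀ᶠ n : ℕ in atTop, (franel n ≤ C * (Real.log n / n) ↔ QQ n ≤ C) := by
    intro C
    filter_upwards [log_top.eventually_gt_atTop 0, eventually_gt_atTop 0] with n h1 h2
    have h3 : (0 : ℝ) < n := by exact_mod_cast h2
    rw [hFr]
    unfold QQ
    rw [div_le_iff₀ h1, mul_div_assoc', le_div_iff₀ h3, mul_comm (Fr n)]
  have e2 : ∀ c : ℝ, ∀ᶠ n : ℕ in atTop, (c * (Real.log n / n) ≤ franel n ↔ c ≤ QQ n) := by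
    intro C
    filter_upwards [log_top.eventually_gt_atTop 0, eventually_gt_atTop 0] with n h1 h2
    have h3 : (0 : ℝ) < n := by exact_mod_cast h2
    rw [hFr]
    unfold QQ
    rw [le_div_iff₀ h1, mul_div_assoc', div_le_iff₀ h3, mul_comm (Fr n)]
  refine ⟨hWM.trans ⟨fun hZ => ⟨2 * κ + 1, ?_⟩, ?_⟩, hWM.trans ⟨fun hZ => ⟨2 * κ + 2, ?_⟩, ?_⟩,
    hWM.trans ⟨fun hZ => ?_, ?_⟩, hWM.trans ⟨fun hZ => ?_, ?_⟩, fun h => ?_, fun h => ?_, ?_⟩
  · exact ((QQ_freq hZ one_pos).and_eventually (e1 (2 * κ + 1))).mono fun n hn => hn.2.2 hn.1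
  · rintro ⟨C, hC⟩
    exact ZC_of_QQ ((hC.and_eventually (e1 C)).mono fun n hn => hn.2.1 hn.1)
  · refine ((QQ_freq hZ one_pos).and_eventually ((nlog_top.eventually_ge_atTop 1).and
      ((log_top.eventually_gt_atTop 0).and (eventually_ge_atTop 1)))).mono ?_
    rintro n ⟨h1, h2, h3, h4⟩
    rw [hD, DD_Fr h4]
    have h5 : (0 : ℝ) < n := by exact_mod_cast h4
    unfold QQ at h1
    rw [div_le_iff₀ h3] at h1
    have h6 : ((Pool.Agent.H295R2.farey n).card : ℝ) ≤ (n : ℝ) ^ 2 := by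
      have h7 : (Pool.Agent.H295R2.farey n).card ≤ n ^ 2 := by
        unfold Pool.Agent.H295R2.farey
        refine (Finset.card_filter_le _ _).trans (Finset.card_image_le.trans ?_)
        rw [Finset.card_product, Nat.card_Icc, Nat.add_sub_cancel, sq]
      exact_mod_cast h7
    have h8 : ((Pool.Agent.H295R2.farey n).card : ℝ) * Fr n ≤ (n : ℝ) ^ 2 * Fr n := by
      have := Fr_nonneg n
      gcongr
    have h9 : (n : ℝ) ^ 2 * Fr n = n * (n * Fr n) := by ring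
    have h10 : (n : ℝ) * (n * Fr n) ≤ n * ((2 * κ + 1) * Real.log n) := by gcongr
    nlinarith
  · rintro ⟨C, hC⟩
    by_contra hZ
    have h1 := (DD_top hZ).eventually_gt_atTop C
    refine hC ?_
    filter_upwards [h1, nlog_top.eventually_gt_atTop 0] with n h2 h3
    rw [lt_div_iff₀ h3] at h2
    rw [hD]
    exact not_le.2 h2
  · exact BB_bound hZ
  · rintro ⟨C, hC⟩
    exact ZC_of_BB (C := C) (Eventually.frequently
      (by filter_upwards [eventually_ge_atTop 2] with n hn using hC n hn))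
  · obtain ⟨C, hC⟩ := BB_bound hZ
    exact ⟨C, Eventually.frequently (by filter_upwards [eventually_ge_atTop 2] with n hn using hC n hn)⟩
  · rintro ⟨C, hC⟩
    exact ZC_of_BB hC
  · have hZ := hWM.1 h
    rw [hK]
    exact ⟨Pool.Agent.R305.FM.SH_summable hZ, κ_pos hZ, BB_lim hZ, fun η hη => QQ_liminf hZ hη,
      fun η hη => QQ_freq hZ hη⟩
  · exact QQ_top fun hZ => h (hWM.2 hZ)
  · obtain ⟨c, hc, h⟩ := QQ_uncond
    refine ⟨c, hc, ?_⟩
    filter_upwards [h, e2 c] with n h1 h2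
    exact h2.2 h1

end Pool.Agent.Results.MP_323ce2_nt.FranelSumCriterion
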