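import Pool.Agent.U736.WR.A4

/-!
# The weak Mertens hypothesis for Möbius sums with arbitrary regularly varying complex weights

Let `b : ℕ → ℂ` be any sequence with `n (b(n+1)/b(n) - 1) → -κ`, `Re κ < 1/2`, let `q ≥ 1` and
`W(u) = ∑_{n ≤ u, (n,q)=1} μ(n) b(n)`. We show unconditionally that the weak Mertens hypothesis is equivalent to

`∫_1^x |W(u)|² / (u |b(⌊u⌋)|)² du ≪ log x`,

and that the quotient of this integral by `log x` always has a limit in `(0, ∞]`, which is finite exactly under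
the weak Mertens hypothesis and is then `∑_ρ 1 / |(ρ - κ) ζ'(ρ) ∏_{p ∣ q} (1 - p^(-ρ))|²`.

The case `b(n) = n^(-α)`, `α` real, was known here (`CoprimeWeightedBlocks`). New are the complex exponents and the
slowly varying factors, such as `log^k n`, `exp((log n)^c)`, `exp(i (log n)^c)` with `c < 1`, or
`exp(i log n / log log n)`.

Idea: for `b(n) = n^(-κ)` the normalised sum arises from `M(e^v) e^(-v/2)` by an invertible exponential kernel with
complex exponent. For a general `b`, summation by parts from a late point on shows that the normalised sum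
differs from the one for `n^(-κ)` by a function whose mean square is at most `δ` times that of the latter, up to `o(1)`.
-/

set_option autoImplicit false

open Filter Topology MeasureTheory

namespace Pool.Agent.Results.MP_323ce2_nt.RegularlyVaryingWeights

/-- the Mertens function -/
noncomputable def M (u : ℝ) : ℝ := ∑ n ∈ Finset.Icc 1 ⌊u⌋₊, ((ArithmeticFunction.moebius n : ℤ) : ℝ)

/-- the weak Mertens hypothesis -/
def WeakMertens : Prop := ∃ C : ℝ, ∀ x : ℝ, 2 ≤ x → ∫ u in (1:ℝ)..x, (M u / u) ^ 2 ≤ C * Real.log x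

/-- `∑_{n ≤ u, (n,q)=1} μ(n) b(n)` -/
noncomputable def W (q : ℕ) (b : ℕ → ℂ) (u : ℝ) : ℂ :=
  ∑ n ∈ (Finset.Icc 1 ⌊u⌋₊).filter (fun n : ℕ => Nat.Coprime n q),
    ((ArithmeticFunction.moebius n : ℤ) : ℂ) * b n

/-- `∫_1^x (|W(u)| / (u |b(⌊u⌋)|))² du`; where `b(⌊u⌋) = 0` (this happens only on a bounded set under the
hypothesis of the theorem) the integrand is `0` -/
noncomputable def MS (q : ℕ) (b : ℕ → ℂ) (x : ℝ) : ℝ :=
  ∫ u in (1:ℝ)..x, (‖W q b u‖ / (u * ‖b ⌊u⌋₊‖)) ^ 2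

/-- the nontrivial zeros of the Riemann zeta function -/
def NT : Set ℂ := {s : ℂ | riemannZeta s = 0 ∧ 0 < s.re ∧ s.re < 1}

/-- the term `1 / |(ρ - κ) ζ'(ρ) ∏_{p ∣ q} (1 - p^(-ρ))|²` -/
noncomputable def term (q : ℕ) (κ : ℂ) (ρ : NT) : ℝ :=
  1 / ‖((ρ : ℂ) - κ) * deriv riemannZeta ρ * ∏ p ∈ q.primeFactors, (1 - (p : ℂ) ^ (-(ρ : ℂ)))‖ ^ 2

open Pool.Agent.R613.WM Pool.Agent.U736.WR in
lemma W_exp {q : ℕ} (hq : 1 ≤ q) (b : ℕ → ℂ) (v : ℝ) :
    W q b (Real.exp v) = Cs (fun n => (muP q.primeFactors n : ℂ) * b n) v := by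
  unfold W Cs
  rw [Finset.sum_filter]
  refine Finset.sum_congr rfl fun n hn => ?_
  have hc : Nat.Coprime n q ↔ ∀ p ∈ q.primeFactors, ¬ p ∣ n := by
    constructor
    · intro h p hp hpn
      have h1 := Nat.dvd_gcd hpn (Nat.dvd_of_mem_primeFactors hp)
      rw [h] at h1
      exact (Nat.prime_of_mem_primeFactors hp).one_lt.ne' (Nat.dvd_one.1 h1)
    · intro h
      by_contra hne
      obtain ⟨p, hp, hpd⟩ := Nat.exists_prime_and_dvd hne
      exact h p (Nat.mem_primeFactors.2 ⟨hp, hpd.trans (Nat.gcd_dvd_right n q), by omega⟩)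
        (hpd.trans (Nat.gcd_dvd_left n q))
  unfold muP
  beta_reduce
  by_cases h : Nat.Coprime n q
  · rw [if_pos h, if_pos (hc.1 h)]
    unfold H353.FB.mu
    push_cast
    rfl
  · rw [if_neg h, if_neg (fun h2 => h (hc.2 h2))]
    simp

open Pool.Agent.R613.WM Pool.Agent.U736.WR in
lemma MS_eq {q : ℕ} (hq : 1 ≤ q) (b : ℕ → ℂ) {x : ℝ} (hx : 1 ≤ x) :
    MS q b x = IQ (Gs (fun n => (muP q.primeFactors n : ℂ) * b n) b) (Real.log x) := by
  refine int_IQ (fun v _ => ?_) hx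
  rw [W_exp hq]
  unfold Gs
  rw [norm_mul, norm_mul, norm_inv, Complex.norm_exp]
  have h1 : (-(1 / 2) * (v : ℂ)).re = -(v / 2) := by
    rw [Complex.re_mul_ofReal]
    simp
    ring
  have h2 : Real.exp v = Real.exp (v / 2) * Real.exp (v / 2) := by
    rw [← Real.exp_add]
    congr 1
    ring
  have h3 := Real.exp_ne_zero (v / 2)
  have h4 := Real.exp_ne_zero v
  rw [h1, Real.exp_neg]
  by_cases h0 : ‖b ⌊Real.exp v⌋₊‖ = 0
  · rw [h0]
    simp
  · rw [div_pow, mul_pow, mul_pow, mul_pow, inv_pow, inv_pow]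
    field_simp
    rw [h2]
    ring

/-- For every sequence `b : ℕ → ℂ` with `n (b(n+1)/b(n) - 1) → -κ`, `Re κ < 1/2`, and every `q ≥ 1`, the mean square
of `∑_{n ≤ u, (n,q)=1} μ(n) b(n) / b(⌊u⌋)` obeys the weak Mertens hypothesis. -/
theorem result (q : ℕ) (hq : 1 ≤ q) (κ : ℂ) (hκ : κ.re < 1 / 2) (b : ℕ → ℂ)
    (hb : Tendsto (fun n : ℕ => (n : ℂ) * (b (n + 1) / b n - 1)) atTop (𝓝 (-κ))) :
    (WeakMertens ↔ ∃ C : ℝ, ∀ x : ℝ, 2 ≤ x → MS q b x ≤ C * Real.log x) ∧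
    (WeakMertens ↔ ∃ C : ℝ, ∃ᶠ x : ℝ in atTop, MS q b x ≤ C * Real.log x) ∧
    (WeakMertens → Summable (term q κ) ∧ 0 < ∑' ρ, term q κ ρ ∧
      Tendsto (fun x : ℝ => MS q b x / Real.log x) atTop (𝓝 (∑' ρ, term q κ ρ))) ∧
    (¬ WeakMertens → Tendsto (fun x : ℝ => MS q b x / Real.log x) atTop atTop) := by
  have hWM : WeakMertens ↔ Pool.Agent.W120.WM.ZC := Pool.Agent.TH223.AP.WM_iff_ZC
  obtain ⟨⟨l1, l2, l3, l4⟩, l5⟩ := Pool.Agent.U736.WR.law_seq q hκ hb (I := MS q b) (fun x hx => MS_eq hq b hx)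
  refine ⟨hWM.trans l1, hWM.trans l2, fun hW => ?_, fun hW => l4 fun hZ => hW (hWM.2 hZ)⟩
  have hZ := hWM.1 hW
  have hss : term q κ = fun ρ : NT =>
      ‖Pool.Agent.U736.WR.mC q.primeFactors κ ρ‖ ^ 2 / ‖(ρ : ℂ) * deriv riemannZeta ρ‖ ^ 2 := by
    funext ρ
    unfold term
    exact (Pool.Agent.U736.WR.mC_eq q hκ (hZ.1 ρ ρ.2).1).symm
  rw [hss]
  exact ⟨(l5 hZ).1, (l5 hZ).2, l3 hZ⟩

end Pool.Agent.Results.MP_323ce2_nt.RegularlyVaryingWeights
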